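import Mathlib
import Pool.Agent.D0H93.RP.Weak

/-!
# The weak conjecture for every curve as a polynomial comparison of the numbers of rational points of
# bounded height with the products of the numbers of points modulo `p`

Let `C : y² = x³ + a x + b` be any elliptic curve over `ℚ`, `a, b ∈ ℤ`, and `F` the entire
continuation of its incomplete `L`-series.

* `R(X)` is one plus the number of the integral solutions `(A, B, D)` of `B² = A³ + a A D⁴ + b D⁶` with
  `D ≥ 1`, `gcd(A, D) = 1`, `|A| ≤ X` and `D² ≤ X`, that is the number of the points of `C(ℚ)` for which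
  the numerator and the denominator of `x = A / D²` are at most `X`, with the point at infinity;
* `N_p` is the number of the points of `C` modulo `p` for the primes `p ∤ 2Δ`, and `E(X) = exp S(X)`
  is, for a fixed number `c > π/2` (any), the product of the `N_p / p` with the weights
  `cos (c u) / Γ(1 + u)`, `u = log p / log X`: an absolutely convergent product for every `X > 1`; the
  weight of each single prime tends to `1` for `X → ∞`.

For every curve, with `m = ord_{s=1} F`, `log (R(X)² / E(X)) = (rank C(ℚ) - m) log log X + O(1)`. So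
the rank form of the conjecture says that `R(X)²` and `E(X)` are of the same order of magnitude. The
weak conjecture is the same with ANY powers:

* `F(1) = 0` implies that `C(ℚ)` is infinite (the open implication) iff `E(X) ≤ B R(X)^A` for all
  `X ≥ 3`, for some `A`, `B`,
* `C(ℚ)` infinite implies `F(1) = 0` iff `R(X)² ≤ B E(X)^A` for all `X ≥ 3`, for some `A`, `B`,
* `F(1) = 0 ↔ C(ℚ)` infinite, iff both.

In both cases, a bound with the loss of a factor `(log X)^δ`, `δ < 1`, for arbitrarily large `X`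
suffices. For example, if for arbitrarily large `X` there are at least
`(E(X) / (log X)^(9/10))^(1/1000)` points of height at most `X`, then `F(1) = 0` implies that `C(ℚ)`
is infinite.

Proof. The theorem of Mordell, Weil and Néron on the number of rational points (library
`Pool.Agent.TH942`; denominators of `x` are squares), and the rotated law for the products (starting
result `MP_696deb_nt.AnalyticRankLaw`, library `Pool.Agent.W187`).
-/

set_option autoImplicit false

namespace Pool.Agent.Results.MP_8b7eba_nt.PolynomialComparison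

open Filter Topology Classical

/-- `R(X)`: one plus the number of the triples of integers `(A, B, D)` with
`B² = A³ + a A D⁴ + b D⁶`, `D ≥ 1`, `gcd(A, D) = 1`, `|A| ≤ X`, `D² ≤ X` -/
noncomputable def R (a b : ℤ) (X : ℝ) : ℝ :=
  (Nat.card {v : ℤ × ℤ × ℤ // 1 ≤ v.2.2 ∧ IsCoprime v.1 v.2.2 ∧
    v.2.1 ^ 2 = v.1 ^ 3 + a * v.1 * v.2.2 ^ 4 + b * v.2.2 ^ 6 ∧
    (|v.1| : ℝ) ≤ X ∧ (v.2.2 : ℝ) ^ 2 ≤ X} : ℝ) + 1

/-- `N_p`: one plus the number of the solutions of `y² = x³ + a x + b` modulo `p` -/
noncomputable def numPoints (a b : ℤ) (p : ℕ) : ℕ :=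
  Nat.card {q : ZMod p × ZMod p // q.2 ^ 2 = q.1 ^ 3 + (a : ZMod p) * q.1 + (b : ZMod p)} + 1

/-- `p` is a prime that does not divide `2 Δ`, `Δ = -4 a³ - 27 b²` -/
def Good (a b : ℤ) (p : ℕ) : Prop :=
  p.Prime ∧ ¬ ((p : ℤ) ∣ 2 * (-4 * a ^ 3 - 27 * b ^ 2))

/-- the term at `p` of `S(X)` -/
noncomputable def term (a b : ℤ) (c X : ℝ) (p : ℕ) : ℝ :=
  if Good a b p then Real.cos (c * (Real.log p / Real.log X)) *
    Real.log ((numPoints a b p : ℝ) / p) / Real.Gamma (1 + Real.log p / Real.log X) else 0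

/-- `S(X)`, the sum over `p ∤ 2 Δ` of `cos (c u) / Γ(1 + u) * log (N_p / p)`, `u = log p / log X` -/
noncomputable def S (a b : ℤ) (c X : ℝ) : ℝ := ∑' p : ℕ, term a b c X p

/-- `F` is an entire function which for `Re s > 3/2` is the incomplete `L`-series
`∏_{p ∤ 2Δ} (1 - a_p p^{-s} + p^{1-2s})⁻¹`, `a_p = p + 1 - N_p`, of `y² = x³ + a x + b`. -/
def IsLSeries (a b : ℤ) (F : ℂ → ℂ) : Prop :=
  Differentiable ℂ F ∧ ∀ s : ℂ, (3 : ℝ) / 2 < s.re →
    HasProd (fun p : ℕ => if Good a b p then
      (1 - ((p : ℂ) + 1 - (numPoints a b p : ℂ)) * (p : ℂ) ^ (-s) + (p : ℂ) ^ (1 - 2 * s))⁻¹ else 1)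
      (F s)

/-- the rank of the group of rational points of `y² = x³ + a x + b` -/
noncomputable def rank (a b : ℤ) : ℕ :=
  Module.finrank ℤ
    (WeierstrassCurve.Affine.Point
      (WeierstrassCurve.toAffine
        ({ a₁ := 0, a₂ := 0, a₃ := 0, a₄ := (a : ℚ), a₆ := (b : ℚ) } : WeierstrassCurve ℚ)))

/-- the affine rational points of `y² = x³ + a x + b` -/
def Points (a b : ℤ) : Set (ℚ × ℚ) := {q | q.2 ^ 2 = q.1 ^ 3 + a * q.1 + b}

/-- **The weak conjecture as a polynomial comparison.** -/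
theorem result (a b : ℤ) (hΔ : 4 * a ^ 3 + 27 * b ^ 2 ≠ 0) (F : ℂ → ℂ) (hF : IsLSeries a b F) :
    ∃ m : ℕ, analyticOrderAt F 1 = m ∧ ∀ c : ℝ, Real.pi / 2 < c →
      -- the law
      (∃ M : ℝ, ∀ X : ℝ, 3 ≤ X → |Real.log (R a b X ^ 2 / Real.exp (S a b c X)) -
        ((rank a b : ℝ) - m) * Real.log (Real.log X)| ≤ M) ∧
      -- the open implication
      List.TFAE [F 1 = 0 → (Points a b).Infinite,
        ∃ (A : ℕ) (B : ℝ), ∀ X : ℝ, 3 ≤ X → Real.exp (S a b c X) ≤ B * R a b X ^ A,
        ∃ (A : ℕ) (δ : ℝ), δ < 1 ∧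
          ∃ᶠ X : ℝ in atTop, Real.exp (S a b c X) ≤ R a b X ^ A * Real.log X ^ δ] ∧
      -- the other implication
      List.TFAE [(Points a b).Infinite → F 1 = 0,
        ∃ (A : ℕ) (B : ℝ), ∀ X : ℝ, 3 ≤ X → R a b X ^ 2 ≤ B * Real.exp (S a b c X) ^ A,
        ∃ (A : ℕ) (δ : ℝ), δ < 1 ∧
          ∃ᶠ X : ℝ in atTop, R a b X ^ 2 ≤ Real.exp (S a b c X) ^ A * Real.log X ^ δ] ∧
      -- the weak conjecture for the curve
      ((F 1 = 0 ↔ (Points a b).Infinite) ↔
        ∃ (A : ℕ) (B : ℝ), ∀ X : ℝ, 3 ≤ X → Real.exp (S a b c X) ≤ B * R a b X ^ A ∧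
          R a b X ^ 2 ≤ B * Real.exp (S a b c X) ^ A) := by
  have hF' : Pool.Agent.W263.BSD.IsLSeries a b F := by
    refine ⟨hF.1, fun s hs => ?_⟩
    have h := hF.2 s hs
    have e : ∀ p : ℕ, (p : ℂ) + 1 - (numPoints a b p : ℂ) =
        (p : ℂ) - (Pool.Agent.W263.BSD.pointCount a b p : ℂ) := by
      intro p
      unfold numPoints Pool.Agent.W263.BSD.pointCount
      push_cast
      ring
    simp only [e] at h
    exact h
  obtain ⟨m, hm⟩ := Pool.Agent.W189.ML.order_finite_all hF' 1
  have hSe : ∀ c X : ℝ, S a b c X = Pool.Agent.W187.UR.rotSum a b c X := by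
    intro c X
    unfold S Pool.Agent.W187.UR.rotSum term
    refine tsum_congr fun p => ?_
    have e : (numPoints a b p : ℝ) = (Pool.Agent.W263.BSD.pointCount a b p : ℝ) + 1 := by
      unfold numPoints Pool.Agent.W263.BSD.pointCount
      push_cast
      rfl
    rw [e]
    rfl
  have hRe : ∀ X : ℝ, R a b X = Pool.Agent.D0H93.RP.rc a b X := fun X => rfl
  have hrk : rank a b = Pool.Agent.D0H93.RP.rk a b := rfl
  have hR0 : ∀ X : ℝ, 0 < R a b X := fun X => by
    rw [hRe]
    have := Pool.Agent.D0H93.RP.one_le_rc a b X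
    linarith
  have hR1 : ∀ X : ℝ, 1 ≤ R a b X := fun X => Pool.Agent.D0H93.RP.one_le_rc a b X
  have hinf : (Points a b).Infinite ↔ 0 < rank a b := Pool.Agent.D0H93.RP.infinite_iff hΔ
  have hzero : F 1 = 0 ↔ 0 < m := by
    rw [← AnalyticAt.analyticOrderAt_ne_zero (hF.1.analyticAt 1), hm, Nat.pos_iff_ne_zero]
    exact_mod_cast Iff.rfl
  refine ⟨m, hm, fun c hc => ?_⟩
  obtain ⟨M₁, h1⟩ := Pool.Agent.D0H93.RP.log_rc hΔ
  obtain ⟨M₂, h2⟩ := Pool.Agent.W187.UR.rot_law hF' (Pool.Agent.W187.UR.bel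
    Pool.Agent.W392.UR.fac) hm hc
  rw [← hrk] at h1
  clear hrk
  simp only [← hRe] at h1
  simp only [← hSe] at h2
  rw [hinf, hzero]
  have wa := Pool.Agent.D0H93.RP.weak_a hR0 h1 h2
  have wb := Pool.Agent.D0H93.RP.weak_b hR0 h1 h2
  refine ⟨⟨M₁ + M₂, fun X hX => ?_⟩, wa, wb, ?_⟩
  · have e : Real.log (R a b X ^ 2 / Real.exp (S a b c X)) =
        2 * Real.log (R a b X) - S a b c X := by
      rw [Real.log_div (pow_pos (hR0 X) 2).ne' (Real.exp_pos _).ne', Real.log_exp, Real.log_pow]
      norm_num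
    rw [e]
    have h3 := abs_le.1 (h1 X hX)
    have h4 := abs_le.1 (h2 X hX)
    rw [abs_le]
    constructor <;> nlinarith [h3.1, h3.2, h4.1, h4.2]
  · have w12 := wa.out 0 1
    have v12 := wb.out 0 1
    constructor
    · intro h
      obtain ⟨A, B, hB⟩ := w12.1 h.1
      obtain ⟨A', B', hB'⟩ := v12.1 h.2
      -- a lower bound for the products
      have hB0 : 0 ≤ B := by
        have h3 := hB 3 le_rfl
        have h5 : 0 < R a b 3 ^ A := pow_pos (hR0 3) A
        have h4 := Real.exp_pos (S a b c 3)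
        by_contra h6
        push Not at h6
        nlinarith
      have hB'0 : 0 ≤ B' := by
        have h3 := hB' 3 le_rfl
        have h4 : 0 < Real.exp (S a b c 3) ^ A' := pow_pos (Real.exp_pos (S a b c 3)) A'
        have h5 : 0 < R a b 3 ^ 2 := pow_pos (hR0 3) 2
        by_contra h6
        push Not at h6
        nlinarith
      have hlow : ∀ X : ℝ, 3 ≤ X → 1 ≤ Real.exp M₂ * Real.exp (S a b c X) := by
        intro X hX
        rw [← Real.exp_add]
        refine Real.one_le_exp ?_
        have h3 := (abs_le.1 (h2 X hX)).1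
        have h4 : 0 ≤ (m : ℝ) * Real.log (Real.log X) := mul_nonneg (Nat.cast_nonneg m)
          (Real.log_nonneg (Pool.Agent.D0H93.RP.one_lt_log hX).le)
        linarith
      refine ⟨max A A', max B (B' * Real.exp M₂ ^ (max A A' - A')), fun X hX => ⟨?_, ?_⟩⟩
      · refine (hB X hX).trans ?_
        have := hR1 X
        exact mul_le_mul (le_max_left _ _) (pow_le_pow_right₀ this (le_max_left _ _))
          (pow_pos (hR0 X) A).le (hB0.trans (le_max_left _ _))
      · refine (hB' X hX).trans ?_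
        have h3 := hlow X hX
        have h4 : (1 : ℝ) ≤ (Real.exp M₂ * Real.exp (S a b c X)) ^ (max A A' - A') :=
          one_le_pow₀ h3
        have h5 : 0 < Real.exp (S a b c X) ^ A' := pow_pos (Real.exp_pos _) A'
        calc B' * Real.exp (S a b c X) ^ A'
            ≤ B' * Real.exp (S a b c X) ^ A' *
              (Real.exp M₂ * Real.exp (S a b c X)) ^ (max A A' - A') :=
              le_mul_of_one_le_right (mul_nonneg hB'0 h5.le) h4
          _ = B' * Real.exp M₂ ^ (max A A' - A') * Real.exp (S a b c X) ^ (max A A') := by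
              rw [mul_pow, show Real.exp (S a b c X) ^ (max A A') = Real.exp (S a b c X) ^ A' *
                Real.exp (S a b c X) ^ (max A A' - A') by
                  rw [← pow_add, Nat.add_sub_of_le (le_max_right _ _)]]
              ring
          _ ≤ _ := mul_le_mul_of_nonneg_right (le_max_right _ _) (pow_pos (Real.exp_pos _) _).le
    · rintro ⟨A, B, hB⟩
      exact ⟨w12.2 ⟨A, B, fun X hX => (hB X hX).1⟩, v12.2 ⟨A, B, fun X hX => (hB X hX).2⟩⟩

end Pool.Agent.Results.MP_8b7eba_nt.PolynomialComparison
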