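import Pool.Agent.D0H42.X36.AllD

/-!
# The weak conjecture and the quadratic twists `y² = x³ + D³` of `y² = x³ + 1`

`D` is a squarefree integer, positive or negative, prime to three, with `|D| ≡ 1 mod 4`; these are exactly
the odd squarefree `D` prime to three for which the sign of the functional equation of
`E_D : y² = x³ + D³` is `+1`.

* The open implication: if `Ш(E_D/ℚ)` has no element of order two and `L(E_D, 1) = 0`, then `E_D(ℚ)` is
  infinite, for all these `D` without exception.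
* If `E_D(ℚ)` is finite and `Ш(E_D/ℚ)[2] = 0`, then `L(E_D, s)` is entire and `L(E_D, 1) ≠ 0`.
* The proportion of the `D` with finite `E_D(ℚ)` and `Ш(E_D/ℚ)[2] = 0` among all these `D` with
  `|D| ≤ X` tends exactly to `(1/2) ∏_{i ≥ 0} (1 - 2^{-(2i+1)}) = 0.2097...`; so there are at least `a X` of
  them, `a > 0`.

See the header of `Pool/Agent/Results/MP_4a9ea6_nt/TwoPartQuadraticTwistsX36.lean` for the method and the
authors.
-/

set_option autoImplicit false

open scoped Classical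

namespace Pool.Agent.Results.MP_8b7eba_nt.QuadraticTwistsX36

open Pool.Agent.D0H42.X36 (bx byy selD_iff rankD)

/-- `f` is entire and equal to the product over the primes `p ∤ 2 (4 A³ + 27 B²)` of the Euler factors of
`y² = x³ + A x + B`, as in the frozen statement -/
def IsLFunction (A B : ℤ) (f : ℂ → ℂ) : Prop :=
  Differentiable ℂ f ∧
    ∀ s : ℂ, (3 : ℝ) / 2 < s.re →
      HasProd
        (fun p : {p : ℕ // p.Prime ∧ ¬ ((p : ℤ) ∣ 2 * (4 * A ^ 3 + 27 * B ^ 2))} =>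
          ((1 : ℂ)
            - ((((p.1 : ℤ) - (Nat.card {q : ZMod p.1 × ZMod p.1 //
                  q.2 ^ 2 = q.1 ^ 3 + (A : ZMod p.1) * q.1 + (B : ZMod p.1)} : ℤ)) : ℤ) : ℂ)
                * ((p.1 : ℂ) ^ (-s))
            + (p.1 : ℂ) ^ (1 - 2 * s))⁻¹)
        (f s)

/-- the rational points of `y² = x³ + A x + B`, as in the frozen statement -/
def Points (A B : ℤ) : Set (ℚ × ℚ) := {q : ℚ × ℚ | q.2 ^ 2 = q.1 ^ 3 + (A : ℚ) * q.1 + (B : ℚ)}

/-- `D` is squarefree, prime to three, and its absolute value is `≡ 1` modulo `4` -/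
def Class (D : ℤ) : Prop := Squarefree D ∧ D.natAbs % 4 = 1 ∧ ¬ (3 : ℤ) ∣ D

/-- the curve `y² = x³ + D³` over `ℚ` -/
def E (D : ℤ) : WeierstrassCurve ℚ := { a₁ := 0, a₂ := 0, a₃ := 0, a₄ := 0, a₆ := (D : ℚ) ^ 3 }

/-- `Ш(E_D/ℚ)` has no element of order two -/
def NoShaTwo (D : ℤ) : Prop := ∀ x : Pool.Agent.TH841.NF.D.Sha (E D), x + x = 0 → x = 0

theorem E_eq (D : ℤ) : Pool.Agent.D0H42.X36.eD D = E D := by
  unfold Pool.Agent.D0H42.X36.eD Pool.Agent.D0H42.X36.cD E WeierstrassCurve.map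
  simp

theorem two_iff {D : ℤ} (h : Class D) :
    (Finite (E D).toAffine.Point ∧ NoShaTwo D) ↔ Pool.Agent.D0H42.X36.CrD D := by
  unfold NoShaTwo
  rw [← E_eq]
  exact selD_iff bx byy h

/-- the two forms of the product -/
theorem prod_iff {a b : ℤ} {s z : ℂ} (h : HasProd (fun p : ℕ =>
      if p.Prime ∧ ¬ ((p : ℤ) ∣ 2 * (-4 * a ^ 3 - 27 * b ^ 2)) then
        (1 - ((p : ℂ) - (Nat.card {q : ZMod p × ZMod p //
            q.2 ^ 2 = q.1 ^ 3 + (a : ZMod p) * q.1 + (b : ZMod p)} : ℂ))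
            * (p : ℂ) ^ (-s) + (p : ℂ) ^ (1 - 2 * s))⁻¹
      else 1) z) :
    HasProd
        (fun p : {p : ℕ // p.Prime ∧ ¬ ((p : ℤ) ∣ 2 * (4 * a ^ 3 + 27 * b ^ 2))} =>
          ((1 : ℂ)
            - ((((p.1 : ℤ) - (Nat.card {q : ZMod p.1 × ZMod p.1 //
                  q.2 ^ 2 = q.1 ^ 3 + (a : ZMod p.1) * q.1 + (b : ZMod p.1)} : ℤ)) : ℤ) : ℂ)
                * ((p.1 : ℂ) ^ (-s))
            + (p.1 : ℂ) ^ (1 - 2 * s))⁻¹) z := by
  let g : ℕ → ℂ := fun p => (1 - ((((p : ℤ) - (Nat.card {q : ZMod p × ZMod p //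
      q.2 ^ 2 = q.1 ^ 3 + (a : ZMod p) * q.1 + (b : ZMod p)} : ℤ)) : ℤ) : ℂ)
        * ((p : ℂ) ^ (-s)) + (p : ℂ) ^ (1 - 2 * s))⁻¹
  have h1 := (hasProd_subtype_iff_mulIndicator (f := g)
    (s := {p : ℕ | p.Prime ∧ ¬ ((p : ℤ) ∣ 2 * (4 * a ^ 3 + 27 * b ^ 2))}) (a := z)).2 ?_
  · exact h1
  · refine h.congr_fun fun p => ?_
    have e1 : (2 * (-4 * a ^ 3 - 27 * b ^ 2) : ℤ) = -(2 * (4 * a ^ 3 + 27 * b ^ 2)) := by ring
    rw [Set.mulIndicator_apply]
    simp only [Set.mem_setOf_eq, e1, dvd_neg]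
    split_ifs with h2
    · show g p = _
      simp only [g]
      push_cast
      rfl
    · rfl

/-- uniqueness of the continuation -/
theorem unique {A B : ℤ} {f g : ℂ → ℂ} (hf : IsLFunction A B f) (hg : IsLFunction A B g) : f = g := by
  have h1 : AnalyticOnNhd ℂ f Set.univ := fun z _ => hf.1.analyticAt z
  have h2 : AnalyticOnNhd ℂ g Set.univ := fun z _ => hg.1.analyticAt z
  refine h1.eq_of_eventuallyEq h2 (z₀ := 2) ?_
  have h3 : {s : ℂ | (3 : ℝ) / 2 < s.re} ∈ nhds (2 : ℂ) := by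
    refine (isOpen_lt continuous_const Complex.continuous_re).mem_nhds ?_
    show (3 : ℝ) / 2 < (2 : ℂ).re
    norm_num
  filter_upwards [h3] with s hs
  exact (hf.2 s hs).unique (hg.2 s hs)

theorem nonvan {D : ℤ} (h : Class D) (hd : Finite (E D).toAffine.Point ∧ NoShaTwo D) :
    (∃ f, IsLFunction 0 (D ^ 3) f) ∧ ∀ f, IsLFunction 0 (D ^ 3) f → f 1 ≠ 0 := by
  obtain ⟨F, h1, h2, h3⟩ := rankD bx byy (D := D) h
  have hF : IsLFunction 0 (D ^ 3) F := ⟨h1, fun s hs => prod_iff (h2 s hs)⟩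
  refine ⟨⟨F, hF⟩, fun f hf => ?_⟩
  rw [unique hf hF]
  exact h3 ((two_iff h).1 hd)

/-- affine points and points of the curve -/
theorem pts_iff {D : ℤ} (hD : D ≠ 0) :
    (Points 0 (D ^ 3)).Finite ↔ Finite (E D).toAffine.Point := by
  have hDQ : (D : ℚ) ≠ 0 := by exact_mod_cast hD
  have hΔ : (E D).Δ ≠ 0 := by
    have : (E D).Δ = -432 * ((D : ℚ) ^ 3) ^ 2 := by
      unfold E WeierstrassCurve.Δ WeierstrassCurve.b₂ WeierstrassCurve.b₄ WeierstrassCurve.b₆
        WeierstrassCurve.b₈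
      ring
    rw [this]
    exact mul_ne_zero (by norm_num) (pow_ne_zero 2 (pow_ne_zero 3 hDQ))
  have heq : ∀ x y : ℚ, (x, y) ∈ Points 0 (D ^ 3) ↔ (E D).toAffine.Nonsingular x y := by
    intro x y
    rw [← WeierstrassCurve.Affine.equation_iff_nonsingular_of_Δ_ne_zero hΔ,
      WeierstrassCurve.Affine.equation_iff]
    unfold Points E
    simp only [Set.mem_setOf_eq]
    push_cast
    constructor
    · intro h
      linear_combination h
    · intro h
      linear_combination h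
  have e : (E D).toAffine.Point ≃ Option (Points 0 (D ^ 3)) :=
    { toFun := fun P => match P with
        | .zero => none
        | .some x y h => some ⟨(x, y), (heq x y).2 h⟩
      invFun := fun o => match o with
        | none => .zero
        | some q => .some q.1.1 q.1.2 ((heq q.1.1 q.1.2).1 q.2)
      left_inv := by
        rintro (_ | ⟨x, y, h⟩) <;> rfl
      right_inv := by
        rintro (_ | ⟨⟨x, y⟩, h⟩) <;> rfl }
  constructor
  · intro h
    have := h.to_subtype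
    exact Finite.of_equiv _ e.symm
  · intro h
    have h1 : Finite (Option (Points 0 (D ^ 3))) := Finite.of_equiv _ e
    have h2 : Finite (Points 0 (D ^ 3)) := Finite.of_injective _ (Option.some_injective _)
    exact Set.toFinite _

theorem result :
    (∀ D : ℤ, Class D → NoShaTwo D → ∀ f, IsLFunction 0 (D ^ 3) f → f 1 = 0 →
      (Points 0 (D ^ 3)).Infinite) ∧
    (∀ D : ℤ, Class D → (Points 0 (D ^ 3)).Finite → NoShaTwo D →
      (∃ f, IsLFunction 0 (D ^ 3) f) ∧ ∀ f, IsLFunction 0 (D ^ 3) f → f 1 ≠ 0) ∧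
    Filter.Tendsto (fun X : ℕ =>
        (((Finset.Icc (-(X : ℤ)) X).filter fun D =>
          Class D ∧ (Points 0 (D ^ 3)).Finite ∧ NoShaTwo D).card : ℝ) /
        (((Finset.Icc (-(X : ℤ)) X).filter fun D => Class D).card : ℝ)) Filter.atTop
      (nhds ((1 / 2) * ∏' i : ℕ, (1 - (1 / 2 : ℝ) ^ (2 * i + 1)))) ∧
    ∃ (a : ℝ) (X₁ : ℕ), 0 < a ∧ ∀ X : ℕ, X₁ ≤ X → a * X ≤
      (((Finset.Icc (-(X : ℤ)) X).filter fun D =>
          Class D ∧ (Points 0 (D ^ 3)).Finite ∧ NoShaTwo D).card : ℝ) := by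
  have h3 : Filter.Tendsto (fun X : ℕ =>
        (((Finset.Icc (-(X : ℤ)) X).filter fun D =>
          Class D ∧ (Points 0 (D ^ 3)).Finite ∧ NoShaTwo D).card : ℝ) /
        (((Finset.Icc (-(X : ℤ)) X).filter fun D => Class D).card : ℝ)) Filter.atTop
      (nhds ((1 / 2) * ∏' i : ℕ, (1 - (1 / 2 : ℝ) ^ (2 * i + 1)))) := by
    refine Pool.Agent.D0H42.X36.denA.congr fun X => ?_
    refine congrArg₂ (fun a b : ℕ => (a : ℝ) / (b : ℝ)) ?_ ?_
    · refine congrArg Finset.card (Finset.ext fun D => ?_)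
      rw [Finset.mem_filter, Finset.mem_filter]
      refine and_congr_right fun _ => and_congr_right fun h => ?_
      rw [pts_iff h.1.ne_zero]
      exact (two_iff h).symm
    · refine congrArg Finset.card (Finset.ext fun D => ?_)
      rw [Finset.mem_filter, Finset.mem_filter]
      rfl
  refine ⟨?_, ?_, h3, ?_⟩
  · intro D h hS f hf hf1 hfin
    exact (nonvan h ⟨(pts_iff h.1.ne_zero).1 hfin, hS⟩).2 f hf hf1
  · intro D h hfin hS
    exact nonvan h ⟨(pts_iff h.1.ne_zero).1 hfin, hS⟩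
  · refine Pool.Agent.D0H42.X36.low_ofD Pool.Agent.D0H42.X36.half_pos' ?_
    refine h3.congr fun X => congrArg₂ (fun a b : ℕ => (a : ℝ) / (b : ℝ)) rfl ?_
    refine congrArg Finset.card (Finset.ext fun D => ?_)
    rw [Finset.mem_filter, Finset.mem_filter]
    rfl

end Pool.Agent.Results.MP_8b7eba_nt.QuadraticTwistsX36
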