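import Pool.Agent.D0H43.MQ.Qt
import Pool.Agent.D0H43.MQ.QtC

/-!
# The weak conjecture and the curves `y² = x³ + 2 m t² x`, `t ∣ m`, `m` a product of different primes
# `≡ 1 mod 4`

`E_{m,t} : y² = x³ + 2 m t² x`, the quadratic twist by `t` of `y² = x³ + 2 m x`, for `m` squarefree with
all prime factors `≡ 1 mod 4` (any number `ω` of them) and for all the `2^ω` divisors `t` of `m`.

* The open implication: if `Ш(E_{m,t}/ℚ)` has no element of order two and `L(E_{m,t}, 1) = 0` then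
  `E_{m,t}(ℚ)` is infinite, for all these `m` and `t` without exception.
* All or none: for every `t ∣ m`, `E_{m,t}(ℚ)` is finite and `Ш(E_{m,t}/ℚ)[2] = 0` if and only if the
  matrix `mat m` over `𝔽₂` (Laplacian of the quadratic residue symbols between the prime factors of `m`,
  with `1` added on the diagonal at the primes `≡ 5 mod 8`) is not singular; it does not depend on `t`.
  In this case both sides of the conjecture are false for all the `2^ω` curves: `L(E_{m,t}, 1) ≠ 0` and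
  `E_{m,t}(ℚ)` is finite.
* The proportion of these `m` among all products of different primes `≡ 1 mod 4`, ordered by size,
  tends exactly to `∏_{i ≥ 0} (1 - 2^{-(2i+1)}) = 0.4194...`, and there are at least `a X / √(log X)`
  of them up to `X`.

See the header of `Pool/Agent/Results/MP_4a9ea6_nt/TwoPartTwistsByDivisors.lean` for the method and the
authors of the case `t = 1` (helper10 and others), which this result contains; the values
`L(E_{m,t}, 1)`: `Pool/Agent/D0H43/MQ` (helper43); the descent for the twists: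
`Pool/Agent/D0H76/BKR/Dsc.lean` (helper76) and `Pool/Agent/D0H43/MQ/QtC.lean`.
-/

set_option autoImplicit false

open scoped Classical

namespace Pool.Agent.Results.MP_8b7eba_nt.QuarticTwistsByDivisors

/-- `f` is entire and equal to the product over the primes `p ∤ 2 (4 A³ + 27 B²)` of the Euler factors of
`y² = x³ + A x + B`, as in the frozen statement -/
def IsLFunction (A B : ℤ) (f : ℂ → ℂ) : Prop :=
  Differentiable ℂ f ∧
    ∀ s : ℂ, (3 : ℝ) / 2 < s.re →
      HasProd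
        (fun p : {p : ℕ // p.Prime ∧ ¬ ((p : ℤ) ∣ 2 * (4 * A ^ 3 + 27 * B ^ 2))} =>
          ((1 : ℂ)
            - ((((p.1 : ℤ) - (Nat.card {q : ZMod p.1 × ZMod p.1 //
                  q.2 ^ 2 = q.1 ^ 3 + (A : ZMod p.1) * q.1 + (B : ZMod p.1)} : ℤ)) : ℤ) : ℂ)
                * ((p.1 : ℂ) ^ (-s))
            + (p.1 : ℂ) ^ (1 - 2 * s))⁻¹)
        (f s)

/-- the rational points of `y² = x³ + A x + B`, as in the frozen statement -/
def Points (A B : ℤ) : Set (ℚ × ℚ) := {q : ℚ × ℚ | q.2 ^ 2 = q.1 ^ 3 + (A : ℚ) * q.1 + (B : ℚ)}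

/-- `m` is squarefree and all its prime factors are `≡ 1 mod 4` -/
def Class (m : ℕ) : Prop := Squarefree m ∧ ∀ p ∈ m.primeFactors, p % 4 = 1

/-- the curve `y² = x³ + 2 m t² x` over `ℚ` -/
def E (m t : ℕ) : WeierstrassCurve ℚ :=
  { a₁ := 0, a₂ := 0, a₃ := 0, a₄ := 2 * (m : ℚ) * (t : ℚ) ^ 2, a₆ := 0 }

/-- `Ш(E_{m,t}/ℚ)` has no element of order two -/
def NoShaTwo (m t : ℕ) : Prop := ∀ x : Pool.Agent.TH841.NF.D.Sha (E m t), x + x = 0 → x = 0

/-- `1` if `a` is not a square modulo `p`, and `0` if it is -/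
noncomputable def nonsq (p a : ℕ) : ZMod 2 := if IsSquare (a : ZMod p) then 0 else 1

/-- The matrix over the field with two elements, with rows and columns indexed by the prime factors of
`m`: the entry at `(p, q)` is `nonsq p q` for `p ≠ q`, and the entry at `(p, p)` is the sum of
`nonsq p 2` and of the `nonsq p l` for all the prime factors `l ≠ p` of `m`. -/
noncomputable def mat (m : ℕ) : Matrix m.primeFactors m.primeFactors (ZMod 2) :=
  Matrix.of fun p q =>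
    if p = q then nonsq p 2 + ∑ l ∈ m.primeFactors.erase p, nonsq p l else nonsq p q

theorem E_eq (m t : ℕ) : (⟨0, 0, 0, 2 * m * t ^ 2, 0⟩ : WeierstrassCurve ℚ) = E m t := rfl

theorem two_iff {m t : ℕ} (h : Class m) (ht : t ∣ m) :
    (Finite (E m t).toAffine.Point ∧ NoShaTwo m t) ↔ (mat m).det ≠ 0 := by
  unfold NoShaTwo
  rw [← E_eq]
  constructor
  · rintro ⟨hf, hs⟩ h0
    obtain ⟨x, hx, hx2⟩ := Pool.Agent.D0H43.MQ.QtC.convT h ht h0 hf
    exact hx (hs x hx2)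
  · intro hd
    obtain ⟨hf, hs⟩ := Pool.Agent.D0H43.MQ.Qt.selT h hd ht
    exact ⟨hf, fun x hx => hs 1 x (by rw [pow_one, two_nsmul]; exact hx)⟩

/-- the two forms of the product -/
theorem prod_iff {a b : ℤ} {s z : ℂ} (h : HasProd (fun p : ℕ =>
      if p.Prime ∧ ¬ ((p : ℤ) ∣ 2 * (-4 * a ^ 3 - 27 * b ^ 2)) then
        (1 - ((p : ℂ) - (Nat.card {q : ZMod p × ZMod p //
            q.2 ^ 2 = q.1 ^ 3 + (a : ZMod p) * q.1 + (b : ZMod p)} : ℂ))
            * (p : ℂ) ^ (-s) + (p : ℂ) ^ (1 - 2 * s))⁻¹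
      else 1) z) :
    HasProd
        (fun p : {p : ℕ // p.Prime ∧ ¬ ((p : ℤ) ∣ 2 * (4 * a ^ 3 + 27 * b ^ 2))} =>
          ((1 : ℂ)
            - ((((p.1 : ℤ) - (Nat.card {q : ZMod p.1 × ZMod p.1 //
                  q.2 ^ 2 = q.1 ^ 3 + (a : ZMod p.1) * q.1 + (b : ZMod p.1)} : ℤ)) : ℤ) : ℂ)
                * ((p.1 : ℂ) ^ (-s))
            + (p.1 : ℂ) ^ (1 - 2 * s))⁻¹) z := by
  let g : ℕ → ℂ := fun p => (1 - ((((p : ℤ) - (Nat.card {q : ZMod p × ZMod p //
      q.2 ^ 2 = q.1 ^ 3 + (a : ZMod p) * q.1 + (b : ZMod p)} : ℤ)) : ℤ) : ℂ)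
        * ((p : ℂ) ^ (-s)) + (p : ℂ) ^ (1 - 2 * s))⁻¹
  have h1 := (hasProd_subtype_iff_mulIndicator (f := g)
    (s := {p : ℕ | p.Prime ∧ ¬ ((p : ℤ) ∣ 2 * (4 * a ^ 3 + 27 * b ^ 2))}) (a := z)).2 ?_
  · exact h1
  · refine h.congr_fun fun p => ?_
    have e1 : (2 * (-4 * a ^ 3 - 27 * b ^ 2) : ℤ) = -(2 * (4 * a ^ 3 + 27 * b ^ 2)) := by ring
    rw [Set.mulIndicator_apply]
    simp only [Set.mem_setOf_eq, e1, dvd_neg]
    split_ifs with h2
    · show g p = _
      simp only [g]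
      push_cast
      rfl
    · rfl

/-- uniqueness of the continuation -/
theorem unique {A B : ℤ} {f g : ℂ → ℂ} (hf : IsLFunction A B f) (hg : IsLFunction A B g) : f = g := by
  have h1 : AnalyticOnNhd ℂ f Set.univ := fun z _ => hf.1.analyticAt z
  have h2 : AnalyticOnNhd ℂ g Set.univ := fun z _ => hg.1.analyticAt z
  refine h1.eq_of_eventuallyEq h2 (z₀ := 2) ?_
  have h3 : {s : ℂ | (3 : ℝ) / 2 < s.re} ∈ nhds (2 : ℂ) := by
    refine (isOpen_lt continuous_const Complex.continuous_re).mem_nhds ?_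
    show (3 : ℝ) / 2 < (2 : ℂ).re
    norm_num
  filter_upwards [h3] with s hs
  exact (hf.2 s hs).unique (hg.2 s hs)

theorem nonvan {m t : ℕ} (h : Class m) (ht : t ∣ m) (hd : (mat m).det ≠ 0) :
    (∃ f, IsLFunction (2 * (m : ℤ) * (t : ℤ) ^ 2) 0 f) ∧
      ∀ f, IsLFunction (2 * (m : ℤ) * (t : ℤ) ^ 2) 0 f → f 1 ≠ 0 := by
  obtain ⟨F, h1, h2, h3⟩ := Pool.Agent.D0H43.MQ.Qt.rankT h hd ht
  have ha : (2 * ((m * t ^ 2 : ℕ) : ℤ) : ℤ) = 2 * (m : ℤ) * (t : ℤ) ^ 2 := by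
    push_cast
    ring
  rw [ha] at h2
  have hF : IsLFunction (2 * (m : ℤ) * (t : ℤ) ^ 2) 0 F := ⟨h1, fun s hs => prod_iff (h2 s hs)⟩
  refine ⟨⟨F, hF⟩, fun f hf => ?_⟩
  rw [unique hf hF]
  exact h3

/-- affine points and points of the curve -/
theorem pts_iff {m t : ℕ} (hm : m ≠ 0) (ht : t ≠ 0) :
    (Points (2 * (m : ℤ) * (t : ℤ) ^ 2) 0).Finite ↔ Finite (E m t).toAffine.Point := by
  have hmQ : (m : ℚ) ≠ 0 := by exact_mod_cast hm
  have htQ : (t : ℚ) ≠ 0 := by exact_mod_cast ht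
  have hΔ : (E m t).Δ ≠ 0 := by
    have : (E m t).Δ = -64 * (2 * (m : ℚ) * (t : ℚ) ^ 2) ^ 3 := by
      unfold E WeierstrassCurve.Δ WeierstrassCurve.b₂ WeierstrassCurve.b₄ WeierstrassCurve.b₆
        WeierstrassCurve.b₈
      ring
    rw [this]
    exact mul_ne_zero (by norm_num)
      (pow_ne_zero 3 (mul_ne_zero (mul_ne_zero two_ne_zero hmQ) (pow_ne_zero 2 htQ)))
  have heq : ∀ x y : ℚ, (x, y) ∈ Points (2 * (m : ℤ) * (t : ℤ) ^ 2) 0 ↔
      (E m t).toAffine.Nonsingular x y := by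
    intro x y
    rw [← WeierstrassCurve.Affine.equation_iff_nonsingular_of_Δ_ne_zero hΔ,
      WeierstrassCurve.Affine.equation_iff]
    unfold Points E
    simp only [Set.mem_setOf_eq]
    push_cast
    constructor
    · intro h
      linear_combination h
    · intro h
      linear_combination h
  have e : (E m t).toAffine.Point ≃ Option (Points (2 * (m : ℤ) * (t : ℤ) ^ 2) 0) :=
    { toFun := fun P => match P with
        | .zero => none
        | .some x y h => some ⟨(x, y), (heq x y).2 h⟩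
      invFun := fun o => match o with
        | none => .zero
        | some q => .some q.1.1 q.1.2 ((heq q.1.1 q.1.2).1 q.2)
      left_inv := by
        rintro (_ | ⟨x, y, h⟩) <;> rfl
      right_inv := by
        rintro (_ | ⟨⟨x, y⟩, h⟩) <;> rfl }
  constructor
  · intro h
    have := h.to_subtype
    exact Finite.of_equiv _ e.symm
  · intro h
    have h1 : Finite (Option (Points (2 * (m : ℤ) * (t : ℤ) ^ 2) 0)) := Finite.of_equiv _ e
    have h2 : Finite (Points (2 * (m : ℤ) * (t : ℤ) ^ 2) 0) :=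
      Finite.of_injective _ (Option.some_injective _)
    exact Set.toFinite _

theorem t_ne {m t : ℕ} (h : Class m) (ht : t ∣ m) : t ≠ 0 :=
  fun h0 => h.1.ne_zero (zero_dvd_iff.1 (h0 ▸ ht))

theorem result :
    (∀ m : ℕ, Class m → ∀ t : ℕ, t ∣ m → NoShaTwo m t →
      ∀ f, IsLFunction (2 * (m : ℤ) * (t : ℤ) ^ 2) 0 f → f 1 = 0 →
        (Points (2 * (m : ℤ) * (t : ℤ) ^ 2) 0).Infinite) ∧
    (∀ m : ℕ, Class m → ∀ t : ℕ, t ∣ m →
      (Finite (E m t).toAffine.Point ∧ NoShaTwo m t ↔ (mat m).det ≠ 0)) ∧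
    (∀ m : ℕ, Class m → (mat m).det ≠ 0 → ∀ t : ℕ, t ∣ m →
      (∃ f, IsLFunction (2 * (m : ℤ) * (t : ℤ) ^ 2) 0 f) ∧
      (∀ f, IsLFunction (2 * (m : ℤ) * (t : ℤ) ^ 2) 0 f → f 1 ≠ 0) ∧
      (Points (2 * (m : ℤ) * (t : ℤ) ^ 2) 0).Finite) ∧
    Filter.Tendsto (fun X : ℕ =>
        (((Finset.Icc 1 X).filter fun m => Class m ∧ (mat m).det ≠ 0).card : ℝ) /
        (((Finset.Icc 1 X).filter fun m => Class m).card : ℝ)) Filter.atTop
      (nhds (∏' i : ℕ, (1 - (1 / 2 : ℝ) ^ (2 * i + 1)))) ∧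
    ∃ (a : ℝ) (X₁ : ℕ), 0 < a ∧ ∀ X : ℕ, X₁ ≤ X → a * (X / √(Real.log X)) ≤
      (((Finset.Icc 1 X).filter fun m => Class m ∧ (mat m).det ≠ 0).card : ℝ) := by
  refine ⟨?_, fun m h t ht => two_iff h ht, ?_, Pool.Agent.D0H10.Q4.denQ, Pool.Agent.D0H10.Q4.lowQ⟩
  · intro m h t ht hS f hf hf1 hfin
    have hd := (two_iff h ht).1 ⟨(pts_iff h.1.ne_zero (t_ne h ht)).1 hfin, hS⟩
    exact (nonvan h ht hd).2 f hf hf1
  · intro m h hd t ht
    obtain ⟨h1, h2⟩ := nonvan h ht hd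
    exact ⟨h1, h2, (pts_iff h.1.ne_zero (t_ne h ht)).2 ((two_iff h ht).2 hd).1⟩

end Pool.Agent.Results.MP_8b7eba_nt.QuarticTwistsByDivisors
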