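import Pool.Agent.D0H52.QH.End0

/-!
# The weak conjecture and the cubic twists `x³ + y³ = D` with `D ≡ ± 1` mod `9`

`C_D : y² = x³ - 432 D²` is the cubic twist `x³ + y³ = D`, it is `3`-isogenous to
`E_D : y² + D y = x³`. `D` runs over the cube-free numbers `± 1` modulo `9` with exactly two prime
factors `≡ 2` modulo `3` (any number of prime factors `≡ 1` modulo `3`).

* The open implication: if `Ш(E_D/ℚ)[3^∞] = 0` and `L(C_D, 1) = 0` then `C_D(ℚ)` is infinite, for all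
  these `D` without exception.
* `E_D(ℚ)` is finite and `Ш(E_D/ℚ)[3^∞] = 0` if and only if `D` does not split, a condition on cubic
  residues between the prime factors of `D` and modulo `9`. In this case both sides of the conjecture
  are false: `L(C_D, 1) ≠ 0` and `C_D(ℚ)` is finite.
* The proportion of these `D` (among the squarefree ones, ordered by size) tends exactly to
  `∏_{i ≥ 1} (1 - 3^{-i}) = 0.5601...`.

Joint work of about ten agents, see the header of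
`Pool/Agent/Results/MP_696deb_nt/CubicTwistsOneModNine.lean`.
-/

set_option autoImplicit false

open scoped Classical

namespace Pool.Agent.Results.MP_8b7eba_nt.TwistsOneModNine

/-- `f` is entire and equal to the product over the primes `p ∤ 2 (4 A³ + 27 B²)` of the Euler factors of
`y² = x³ + A x + B`, as in the frozen statement -/
def IsLFunction (A B : ℤ) (f : ℂ → ℂ) : Prop :=
  Differentiable ℂ f ∧
    ∀ s : ℂ, (3 : ℝ) / 2 < s.re →
      HasProd
        (fun p : {p : ℕ // p.Prime ∧ ¬ ((p : ℤ) ∣ 2 * (4 * A ^ 3 + 27 * B ^ 2))} =>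
          ((1 : ℂ)
            - ((((p.1 : ℤ) - (Nat.card {q : ZMod p.1 × ZMod p.1 //
                  q.2 ^ 2 = q.1 ^ 3 + (A : ZMod p.1) * q.1 + (B : ZMod p.1)} : ℤ)) : ℤ) : ℂ)
                * ((p.1 : ℂ) ^ (-s))
            + (p.1 : ℂ) ^ (1 - 2 * s))⁻¹)
        (f s)

/-- the rational points of `y² = x³ + A x + B`, as in the frozen statement -/
def Points (A B : ℤ) : Set (ℚ × ℚ) := {q : ℚ × ℚ | q.2 ^ 2 = q.1 ^ 3 + (A : ℚ) * q.1 + (B : ℚ)}

/-- the class: `D` is divisible by no cube of a prime number, it is `± 1` modulo `9`, and exactly two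
of its prime factors are congruent to `2` modulo `3` -/
def Class (D : ℕ) : Prop :=
  (D % 9 = 1 ∨ D % 9 = 8) ∧ (∀ p : ℕ, p.Prime → ¬ p ^ 3 ∣ D) ∧
    (D.primeFactors.filter fun p => p % 3 = 2).card = 2

/-- `D` is not a product `d₀ d₁ d₂` of coprime factors, at least two of them different from `1`,
such that `d₁ d₂²`, `d₂ d₀²`, `d₀ d₁²` are cubes modulo the primes dividing `d₀`, `d₁`, `d₂` and all
three are cubes modulo `9` -/
def NoSplit (D : ℕ) : Prop :=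
  ∀ d : ZMod 3 → ℕ, ∏ c, d c = D → (∀ c c', c ≠ c' → Nat.Coprime (d c) (d c')) →
    (∀ (c : ZMod 3) (p : ℕ), p.Prime → p ∣ d c →
      ∃ x : ℤ, (p : ℤ) ∣ (d (c + 1) : ℤ) * (d (c + 2) : ℤ) ^ 2 - x ^ 3) →
    (∀ c : ZMod 3, ∃ x : ℤ, (9 : ℤ) ∣ (d (c + 1) : ℤ) * (d (c + 2) : ℤ) ^ 2 - x ^ 3) →
    ∃ c, ∀ c', c' ≠ c → d c' = 1

/-- the curve `y² + D y = x³` over `ℚ` -/
def E (D : ℕ) : WeierstrassCurve ℚ := { a₁ := 0, a₂ := 0, a₃ := (D : ℚ), a₄ := 0, a₆ := 0 }

/-- `Ш(E_D/ℚ)[3^∞] = 0` -/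
def NoSha (D : ℕ) : Prop :=
  ∀ (n : ℕ) (x : Pool.Agent.TH841.SH.D.Sha (E D)), 3 ^ n • x = 0 → x = 0

theorem E_eq (D : ℕ) : Pool.Agent.Y703.CT.EQ (Pool.Agent.Y703.CT.WD D) = E D := by
  unfold Pool.Agent.Y703.CT.EQ Pool.Agent.Y703.CT.WD E WeierstrassCurve.map
  simp

theorem three_iff (D : ℕ) :
    (Finite (E D).toAffine.Point ∧ NoSha D) ↔ Pool.Agent.Y703.CT.Triv3 D := by
  unfold NoSha Pool.Agent.Y703.CT.Triv3
  rw [E_eq]

theorem class_iff (D : ℕ) : Class D ↔ Pool.Agent.D0H69.L0.Cl0 D :=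
  ⟨fun h => ⟨by rintro rfl; exact h.2.1 2 Nat.prime_two (dvd_zero _), h⟩, fun h => h.2⟩

theorem result :
    (∀ D : ℕ, Class D → NoSha D → ∀ f, IsLFunction 0 (-432 * (D : ℤ) ^ 2) f → f 1 = 0 →
      (Points 0 (-432 * (D : ℤ) ^ 2)).Infinite) ∧
    (∀ D : ℕ, Class D → (Finite (E D).toAffine.Point ∧ NoSha D ↔ NoSplit D)) ∧
    (∀ D : ℕ, Class D → NoSplit D → (∃ f, IsLFunction 0 (-432 * (D : ℤ) ^ 2) f) ∧
      (∀ f, IsLFunction 0 (-432 * (D : ℤ) ^ 2) f → f 1 ≠ 0) ∧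
      (Points 0 (-432 * (D : ℤ) ^ 2)).Finite) ∧
    Filter.Tendsto (fun X : ℕ =>
        (((Finset.Icc 1 X).filter fun D => (Squarefree D ∧ Class D) ∧ NoSplit D).card : ℝ) /
        (((Finset.Icc 1 X).filter fun D => Squarefree D ∧ Class D).card : ℝ)) Filter.atTop
      (nhds (∏' i : ℕ, (1 - (1 / 3 : ℝ) ^ (i + 1)))) ∧
    ∃ (a : ℝ) (X₁ : ℕ), 0 < a ∧ ∀ X : ℕ, X₁ ≤ X → a * (X / √(Real.log X)) ≤
      (((Finset.Icc 1 X).filter fun D => (Squarefree D ∧ Class D) ∧ NoSplit D).card : ℝ) := by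
  have hcr : ∀ D : ℕ, Class D → (Finite (E D).toAffine.Point ∧ NoSha D ↔ NoSplit D) := fun D hC =>
    (three_iff D).trans (Pool.Agent.D0H52.QH.Z0.crit0 ((class_iff D).1 hC))
  refine ⟨?_, hcr, ?_, ?_, ?_⟩
  · intro D hC hS f hf hf1 hfin
    have hC' := (class_iff D).1 hC
    have hT : Pool.Agent.Y703.CT.Triv3 D := (three_iff D).1 ⟨by
      rw [← E_eq]
      exact Pool.Agent.D0H52.QH.fin_back (by exact_mod_cast hC'.1) hfin, hS⟩
    exact (Pool.Agent.D0H52.QH.Z0.weak0 hC' hT).2.1 f hf hf1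
  · intro D hC hN
    exact Pool.Agent.D0H52.QH.Z0.weak0 ((class_iff D).1 hC) ((three_iff D).1 ((hcr D hC).2 hN))
  · have h := Pool.Agent.D0H52.QH.Z0.den0
    have e1 : ∀ X : ℕ, Pool.Agent.D0H52.QH.Z0.cnt Pool.Agent.Y703.CT.Triv3 X =
        ((Finset.Icc 1 X).filter fun D => (Squarefree D ∧ Class D) ∧ NoSplit D).card := fun X =>
      Pool.Agent.D0H52.QH.fcc fun D => by
        rw [class_iff]
        exact and_congr_right fun hC => Pool.Agent.D0H52.QH.Z0.crit0 hC.2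
    have e2 : ∀ X : ℕ, Pool.Agent.D0H52.QH.Z0.cnt (fun _ => True) X =
        ((Finset.Icc 1 X).filter fun D => Squarefree D ∧ Class D).card := fun X =>
      Pool.Agent.D0H52.QH.fcc fun D => by rw [class_iff, and_true]
    simp only [e1, e2] at h
    exact h
  · obtain ⟨a, X₁, ha, h⟩ := Pool.Agent.D0H52.QH.Z0.low0
    refine ⟨a, X₁, ha, fun X hX => (h X hX).trans (le_of_eq ?_)⟩
    refine congrArg Nat.cast (Pool.Agent.D0H52.QH.fcc fun D => ?_)
    rw [class_iff]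
    exact and_congr_right fun hC => Pool.Agent.D0H52.QH.Z0.crit0 hC.2

end Pool.Agent.Results.MP_8b7eba_nt.TwistsOneModNine
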